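import Pool.Agent.U309.RotCubicMain

/-!
# Rotation symmetric bent functions of degree at most three

* There is no homogeneous rotation symmetric bent function of degree `3`, in any number of variables.
* More generally, the algebraic normal form of a rotation symmetric bent function of degree at most
  `3` in `n = 2 m` variables contains all the monomials `x_i x_(i + m)`.

Proof. Let `f` be a rotation symmetric bent function of degree at most `3` in `n = 2 m` variables
without the monomials `x_i x_(i + m)`, and let `n = 2 M q` with `M` a power of two and `q` odd. Then `f`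
is constant on the space `U` of the vectors of period `m`. Let `T` be the third derivative of `f`, a
rotation invariant symmetric trilinear form.

The derivative `g x = f (x + 1) + f x` in the direction of the all-ones vector `1` is balanced and
quadratic, so `g (x + w) = g x + 1` for some `w`, and by averaging over the rotations by the multiples
of `2 M` we may assume that `w` has period `2 M`. The weight of `w` on a period is odd: otherwise
`w = x + ρ x` for some `x` (with `ρ` the rotation) and `g (ρ x) = g x + 1`, while `g` is rotation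
symmetric. As `2 M` is a power of two, the rotations of `w` span all the vectors of period `2 M`; and
`T (1, w, ·) = 0`. So `T (1, y, ·) = 0` for all `y` of period `2 M`.

Let `X` be the set of the vectors with `x (i + m) = x i + 1`, a coset of `U`. As `f` is bent and
constant on `U`, it is balanced on `X`, where it is quadratic. So `f (x + u) = f x + 1` on `X` for some
`u` of `U`, and again we may assume that `u` has period `M`. Let `b` be a vector of `X` with period
`2 M`. For `w` of period `2 M` and `u'` of `U` the rotation `τ = ρ ^ m` gives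
`T (b, (1 + τ) w, u') = T ((1 + τ) b, w, u') = T (1, w, u') = 0`. So, for all the vectors `v` of period
`M`, the function `f (x + v) + f x` is constant on `X`. For `v = b + ρ b` the constant is
`f (ρ b) + f b = 0`; as the weight of this `v` on a period is odd, its rotations span all the vectors of
period `M`, so the constant is `0` for all of them, a contradiction for `v = u`.
-/

namespace Pool.Agent.Results.MP_b38f68_co.CubicAllN

open Pool.Agent.TH979.Rot Pool.Agent.U309.RotCubic

/-- **There are no homogeneous rotation symmetric bent functions of degree three**, for any number of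
variables; and all the monomials `x_i x_(i + m)` occur in the algebraic normal form of any rotation
symmetric bent function of degree at most three in `2 m` variables. -/
theorem result :
    (¬ ∃ (n : ℕ) (f : (Fin n → ZMod 2) → ZMod 2) (c : Finset (Fin n) → ZMod 2),
      (∀ S : Finset (Fin n), c S ≠ 0 → S.card = 3) ∧
      (∃ S : Finset (Fin n), c S ≠ 0) ∧
      (∀ x : Fin n → ZMod 2, f x = ∑ S : Finset (Fin n), c S * ∏ i ∈ S, x i) ∧
      (∀ x : Fin n → ZMod 2, f (x ∘ finRotate n) = f x) ∧
      (∀ a : Fin n → ZMod 2,
        (∑ x : Fin n → ZMod 2, (-1 : ℤ) ^ (f x + ∑ i, a i * x i).val) ^ 2 = (2 : ℤ) ^ n)) ∧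
    (∀ (m : ℕ) (f : (Fin (2 * m) → ZMod 2) → ZMod 2) (c : Finset (Fin (2 * m)) → ZMod 2),
      (∀ S : Finset (Fin (2 * m)), c S ≠ 0 → S.card ≤ 3) →
      (∀ x : Fin (2 * m) → ZMod 2, f x = ∑ S : Finset (Fin (2 * m)), c S * ∏ i ∈ S, x i) →
      (∀ x : Fin (2 * m) → ZMod 2, f (x ∘ finRotate (2 * m)) = f x) →
      (∀ a : Fin (2 * m) → ZMod 2,
        (∑ x : Fin (2 * m) → ZMod 2, (-1 : ℤ) ^ (f x + ∑ i, a i * x i).val) ^ 2 =
          (2 : ℤ) ^ (2 * m)) →
      ∀ i j : Fin (2 * m), (j : ℕ) = i + m → c {i, j} = 1) := by
  have hB : ∀ (m : ℕ) (f : (Fin (2 * m) → ZMod 2) → ZMod 2) (c : Finset (Fin (2 * m)) → ZMod 2),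
      (∀ S : Finset (Fin (2 * m)), c S ≠ 0 → S.card ≤ 3) →
      (∀ x : Fin (2 * m) → ZMod 2, f x = ∑ S : Finset (Fin (2 * m)), c S * ∏ i ∈ S, x i) →
      (∀ x : Fin (2 * m) → ZMod 2, f (x ∘ finRotate (2 * m)) = f x) →
      (∀ a : Fin (2 * m) → ZMod 2,
        (∑ x : Fin (2 * m) → ZMod 2, (-1 : ℤ) ^ (f x + ∑ i, a i * x i).val) ^ 2 =
          (2 : ℤ) ^ (2 * m)) →
      ∀ i j : Fin (2 * m), (j : ℕ) = i + m → c {i, j} = 1 :=
    fun m f c hc hf hr hb i j hij => short_orbit_fin m f hb hr c hc hf i j hij
  refine ⟨?_, hB⟩
  rintro ⟨n, f, c, hc, ⟨S, hS⟩, hf, hr, hb⟩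
  obtain ⟨t, ht⟩ := even_of_bent hb
  have hn : n = 2 * t := by omega
  subst hn
  have hcard := hc S hS
  have h1 : S.card ≤ 2 * t := by
    have := Finset.card_le_univ S
    rwa [Fintype.card_fin] at this
  have h2 := hB t f c (fun S hS => (hc S hS).le) hf hr hb ⟨0, by omega⟩ ⟨t, by omega⟩ (by simp)
  have h3 := hc _ (by rw [h2]; decide)
  have h4 := Finset.card_le_two (a := (⟨0, by omega⟩ : Fin (2 * t))) (b := ⟨t, by omega⟩)
  omega

end Pool.Agent.Results.MP_b38f68_co.CubicAllN
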